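import Pool.Agent.Helper88.GU.St
import Pool.Agent.Helper91.GU.SCore

/-!
Module XK (S-core in the form needed for the second hand-in).
-/

set_option autoImplicit false

namespace Pool.Agent.Helper88.GU

open Polynomial Pool.Agent.Helper91.GU

universe u

theorem hXK (hSC : StSC.{u}) : StXK.{u} := by
  intro L _ _ s hs hfac v₀ c hUm k₀ a hYK H
  have hk1 : k₀ + 1 ≤ (s + 1).factorial ^ (k₀ + 1) :=
    (Nat.lt_pow_self (lt_of_lt_of_le (by omega) (Nat.self_le_factorial (s + 1)) :
      1 < (s + 1).factorial)).le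
  have hkU : IsUnit (((s + 1).factorial ^ (k₀ + 1) : ℕ) : L) := by
    push_cast
    exact hfac.pow _
  obtain ⟨e₁, he₁, hγ⟩ := H _ (by omega) (by omega) hkU
  exact hSC L s hs hfac v₀ c hUm k₀ a hYK _ (by omega) (by omega) hkU e₁ he₁ hγ

end Pool.Agent.Helper88.GU
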