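import Pool.Agent.Helper88.GU.St

/-!
Module XL (assembly of XE, XF, XG, XH, XI, XK).
-/

set_option autoImplicit false

namespace Pool.Agent.Helper88.GU

open Polynomial Pool.Agent.Helper91.GU

universe u

theorem mem_idl_map {A B : Type u} [CommRing A] [CommRing B] (φ : A →+* B) {r : ℕ}
    (c : Fin r → A) (f : A) (hf : f ∈ idl c) : φ f ∈ idl (fun j => φ (c j)) := by
  have h1 : (idl c).map φ ≤ idl (fun j => φ (c j)) := by
    rw [idl, Ideal.map_span, idl]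
    refine Ideal.span_mono ?_
    rintro _ ⟨_, ⟨j, rfl⟩, rfl⟩
    exact ⟨j, rfl⟩
  exact h1 (Ideal.mem_map_of_mem φ hf)

theorem mp_row {A B : Type u} [CommRing A] [CommRing B] (φ : A →+* B) {r : ℕ} (a : A)
    (c : Fin r → A) : mp φ (row a c) = row (φ a) (fun j => φ (c j)) := by
  funext j
  rcases j with j | j <;> rfl

theorem row_notMem {A : Type u} [CommRing A] {r : ℕ} {v₀ : A} {c : Fin r → A}
    (hUm : Um (row v₀ c)) (P : Ideal A) (hP : P.IsPrime) (hc : ∀ j, c j ∈ P) : v₀ ∉ P := by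
  intro h
  obtain ⟨y, hy⟩ := hUm
  have h1 : v₀ * y (Sum.inl ()) + ∑ j, c j * y (Sum.inr j) = 1 := by
    have : (row v₀ c) ⬝ᵥ y = v₀ * y (Sum.inl ()) + ∑ j, c j * y (Sum.inr j) := by
      simp [dotProduct, row]
    rw [← this, hy]
  apply hP.ne_top
  rw [Ideal.eq_top_iff_one, ← h1]
  exact P.add_mem (P.mul_mem_right _ h) (P.sum_mem fun j _ => P.mul_mem_right _ (hc j))

theorem hXL (hB7 : StB7.{u}) (hXE : StXE.{u}) (hXF : StXF.{u}) (hXG : StXG.{u}) (hXH : StXH.{u})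
    (hXI : StXI.{u}) (hXK : StXK.{u}) : StXL.{u} := by
  intro R A _ _ _ _ _ _ G m x e SG s₀ Nh s hs hH hN hfac v₀ c' N hUm hf hdeg hA hB hC
  have hE := hXE R A G m x e SG s₀ Nh s hH hN v₀ c'
    (fun j => (G.Γ (c' j.castSucc)).coeff (N j)) hUm hf hB
  have hM := hXF R A G m x e SG s₀ Nh s hH hN v₀ c' hUm hf hA
  have hG4 := hXG A (idl c') (algebraMap R A s₀) Nh s hs hN hH.lt hH.le (fun P hP hle => by
    have hc : ∀ j, c' j ∈ P := fun j => hle (Ideal.subset_span ⟨j, rfl⟩)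
    exact hC P hP (row_notMem hUm P hP hc) hc)
  obtain ⟨k₀, a, ha⟩ := hXH A G s c' N hf hM hdeg hE
  have hYK : YK (idl (fun j => G.Γ (c' j))) k₀ a := by
    intro k hk
    have h1 := mem_idl_map G.Γ c' _ (ha k hk).2
    rwa [map_sub, map_one, (ha k hk).1] at h1
  have hfacX : IsUnit ((s + 1).factorial : A) := hfac
  have hUmX : Um (row (G.Γ v₀) (fun j => G.Γ (c' j))) := by
    have h1 := ((hB7 A A[X] G.Γ).1 (Unit ⊕ Fin (s + 1))).2.2.2.2.2.2 _ hUm
    rwa [mp_row] at h1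
  have hR := hXK A s hs hfacX (G.Γ v₀) (fun j => G.Γ (c' j)) hUmX k₀ a hYK
    (fun k hk _ hkU => hXI A G s c' k (a k) hkU (ha k hk).1 (ha k hk).2 hG4)
  have h2 := ((hB7 A[X] A (evalRingHom 1)).1 (Unit ⊕ Fin (s + 1))).2.2.2.2.2.1 _ _ hR
  rw [mp_row, mp_row] at h2
  have h3 : (fun j => (evalRingHom 1) (G.Γ (c' j))) = c' := by
    funext j
    simpa using G.sum (c' j)
  have h4 : (evalRingHom 1) (G.Γ v₀) = v₀ := by simpa using G.sum v₀
  have h5 : (fun j : Fin (s + 1) => (evalRingHom (1 : A)) ((0 : Fin (s + 1) → A[X]) j)) =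
      (0 : Fin (s + 1) → A) := by
    funext j
    simp
  rw [h3, h4, map_one, h5] at h2
  exact h2

end Pool.Agent.Helper88.GU
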