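import Pool.Agent.Helper88.GU2.M_XL

/-!
Module XM (abstract theorem, assembly of WE, XB, XD, XL).
-/

set_option autoImplicit false

namespace Pool.Agent.Helper88.GU

open Polynomial Pool.Agent.Helper91.GU

universe u

section

variable {R A : Type u} [CommRing R] [CommRing A] [Algebra R A] {G : Gr A} {m : ℕ} {x : Fin m → A}
  {e : Fin m → ℕ}

theorem gam_lin (SG : SGr R A G x e) (z : R) :
    G.Γ (lin x z) = ∑ l : Fin m, C (algebraMap R A (z ^ ((l : ℕ) + 1))) * (C (x l) * X ^ (e l)) := by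
  rw [lin, map_sum]
  refine Finset.sum_congr rfl fun l _ => ?_
  rw [map_mul, SG.r0, SG.deg]

theorem natDegree_gam_lin (SG : SGr R A G x e) (γ z : R) :
    (G.Γ (algebraMap R A γ + lin x z)).natDegree ≤ ∑ l, e l := by
  rw [map_add, SG.r0, gam_lin SG]
  refine le_trans (natDegree_add_le _ _) (max_le (by simp) ?_)
  refine natDegree_sum_le_of_forall_le _ _ fun l _ => ?_
  rw [← mul_assoc, ← C_mul]
  exact le_trans (natDegree_C_mul_X_pow_le _ _)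
    (Finset.single_le_sum (f := e) (fun _ _ => Nat.zero_le _) (Finset.mem_univ l))

theorem pi_max (hX1 : ∀ f : A, ∃ ρ : R, (G.Γ f).coeff 0 = algebraMap R A ρ)
    (hr0 : ∀ a : R, G.Γ (algebraMap R A a) = C (algebraMap R A a)) (𝔪 : Ideal R) (f : A)
    (hf : f ∈ 𝔪.map (algebraMap R A)) : ∃ μ ∈ 𝔪, (G.Γ f).coeff 0 = algebraMap R A μ := by
  rw [Ideal.map] at hf
  induction hf using Submodule.span_induction with
  | mem f hf =>
    obtain ⟨μ, hμ, rfl⟩ := hf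
    exact ⟨μ, hμ, by rw [hr0]; simp⟩
  | zero => exact ⟨0, 𝔪.zero_mem, by simp⟩
  | add f g _ _ hf hg =>
    obtain ⟨μ, hμ, h1⟩ := hf
    obtain ⟨ν, hν, h2⟩ := hg
    exact ⟨μ + ν, 𝔪.add_mem hμ hν, by rw [map_add, coeff_add, h1, h2, map_add]⟩
  | smul a f _ hf =>
    obtain ⟨μ, hμ, h1⟩ := hf
    obtain ⟨ρ, hρ⟩ := hX1 a
    exact ⟨ρ * μ, 𝔪.mul_mem_left _ hμ, by
      rw [smul_eq_mul, map_mul, mul_coeff_zero, hρ, h1, map_mul]⟩

end

theorem hXM (hB7 : StB7.{u}) (hWE : StWE.{u}) (hXB : StXB.{u}) (hXD : StXD.{u})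
    (hXL : StXL.{u}) : StXM.{u} := by
  intro R A _ _ _ _ _ _ G m x e SG 𝔨 h𝔨 hSup s₀ Nh s hs hH hN hfac v d hUm hv hd hdl
  obtain ⟨D, v₀, c, N, hR, hInv⟩ := hWE R A G m x e SG 𝔨 hSup s₀ Nh hH (∑ l, e l) s v d hUm hv hd hdl
  obtain ⟨hv0k, hck, hcs, hdv, -, hN', hlast⟩ := hInv
  have B1 := (hB7 A A (RingHom.id A)).1 (Unit ⊕ Fin (s + 1))
  have B2 := (hB7 A A (RingHom.id A)).2
  have hUm1 : Um (row v₀ c) := B1.2.2.2.2.1 _ _ hR hUm
  obtain ⟨hX1, hX2, Q, hQ, hQu⟩ := hXD R A G m x e SG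
  have hnk : ∀ P : Ideal A, v₀ ∉ P → ¬ 𝔨 ≤ P.comap (algebraMap R A) := fun P hP h =>
    hP (Ideal.map_le_iff_le_comap.2 h hv0k)
  have hF : ∀ P : Ideal A, P.IsPrime → v₀ ∉ P → (∃ l, x l ∉ P) →
      (∀ j : Fin s, (G.Γ (c j.castSucc)).coeff (N j) ∈ P) →
      (s : ℕ∞) ≤ P.height ∧ (algebraMap R A s₀ ∈ P → ((s + 1 : ℕ) : ℕ∞) ≤ P.height) :=
    fun P hP h1 h2 h3 => hlast P hP h2 (hnk P h1) (fun j _ => h3 j)
  -- second stage with a set of extra primes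
  have key : ∀ 𝒬 : Set (Ideal A), 𝒬.Finite →
      (∀ Q ∈ 𝒬, Q.IsPrime ∧ ¬ 𝔨 ≤ Q.comap (algebraMap R A)) →
      (∀ c' : Fin (s + 1) → A, (∀ j, ∃ a : A, c' j = c j + v₀ * a) →
        (∀ Q ∈ 𝒬, v₀ ∉ Q → c' 0 ∉ Q) →
        ∃ j, ∃ ρ : R, IsUnit ρ ∧ (G.Γ (c' j)).coeff 0 = algebraMap R A ρ) →
      REq (row v d) (row 1 0) := by
    intro 𝒬 hfin h𝒬 hunit
    obtain ⟨z, γ, hzγ, c', hc', hA, hB, hC, hQc⟩ := hXB R A G m x e SG 𝔨 hSup s₀ Nh hH s v₀ c
      (fun j => (G.Γ (c j.castSucc)).coeff (N j)) hv0k hF 𝒬 hfin h𝒬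
    have hR2 : REq (row v₀ c) (row v₀ c') := by
      refine (B2 (s + 1) v₀ v₀ c c').2.1 fun j => ?_
      rw [hc' j, Ideal.mem_span_singleton]
      exact ⟨algebraMap R A (γ j) + lin x (z j), by ring⟩
    have hUm2 : Um (row v₀ c') := B1.2.2.2.2.1 _ _ hR2 hUm1
    have hsmall : ∀ j, (G.Γ (v₀ * (algebraMap R A (γ j) + lin x (z j)))).natDegree ≤
        D + ∑ l, e l := by
      intro j
      rw [map_mul]
      exact le_trans natDegree_mul_le (Nat.add_le_add hdv (natDegree_gam_lin SG _ _))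
    have hcoef : ∀ j : Fin s, (G.Γ (c' j.castSucc)).coeff (N j) =
        (G.Γ (c j.castSucc)).coeff (N j) := by
      intro j
      rw [hc', map_add, coeff_add, coeff_eq_zero_of_natDegree_lt
        (lt_of_le_of_lt (hsmall _) (hN' j j.2).1), add_zero]
    have hdeg : ∀ j : Fin s, 1 ≤ N j ∧ (G.Γ (c' j.castSucc)).natDegree ≤ N j := by
      intro j
      refine ⟨by have := (hN' j j.2).1; omega, ?_⟩
      rw [hc', map_add]
      exact le_trans (natDegree_add_le _ _)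
        (max_le (hN' j j.2).2 (le_trans (hsmall _) (hN' j j.2).1.le))
    obtain ⟨j, ρ, hρ, hj⟩ := hunit c' (fun j => ⟨_, hc' j⟩) hQc
    obtain ⟨u, rfl⟩ := hρ
    have hf : ∃ f ∈ idl c', (G.Γ f).coeff 0 = 1 := by
      refine ⟨algebraMap R A (↑u⁻¹ : R) * c' j, Ideal.mul_mem_left _ _
        (Ideal.subset_span ⟨j, rfl⟩), ?_⟩
      rw [map_mul, mul_coeff_zero, SG.r0, coeff_C_zero, hj, ← map_mul, Units.inv_mul, map_one]
    have hB' : ∀ P : Ideal A, P.IsPrime → v₀ ∉ P → (∃ l, x l ∉ P) →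
        (∀ j : Fin s, (G.Γ (c' j.castSucc)).coeff (N j) ∈ P) → (∀ j, c' j ∈ P) →
        ((s + (s + 1) : ℕ) : ℕ∞) ≤ P.height ∧
        (algebraMap R A s₀ ∈ P → ((s + (s + 1) + 1 : ℕ) : ℕ∞) ≤ P.height) := by
      intro P hP h1 h2 h3 h4
      refine hB P hP h1 h2 (fun j => ?_) h4
      rw [← hcoef j]
      exact h3 j
    have hL := hXL R A G m x e SG s₀ Nh s hs hH hN hfac v₀ c' N hUm2 hf hdeg hA hB' hC
    exact B1.2.2.1 _ _ _ hR (B1.2.2.1 _ _ _ hR2 hL)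
  rcases h𝔨 with h𝔨 | h𝔨
  · -- infinite residue field
    refine key {Q} (Set.finite_singleton Q) ?_ ?_
    · rintro P rfl
      refine ⟨hQ, fun h => hQ.ne_top ?_⟩
      rw [h𝔨, top_le_iff] at h
      rw [Ideal.eq_top_iff_one]
      have h1 : (1 : R) ∈ P.comap (algebraMap R A) := by rw [h]; trivial
      simpa using h1
    · intro c' hc' hQc
      have h1 : ∃ j, c' j ∉ Q := by
        by_cases hvQ : v₀ ∈ Q
        · by_contra hcon
          push Not at hcon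
          refine row_notMem hUm1 Q hQ (fun j => ?_) hvQ
          obtain ⟨a, ha⟩ := hc' j
          have h2 : c j = c' j - v₀ * a := by rw [ha]; ring
          rw [h2]
          exact Q.sub_mem (hcon j) (Q.mul_mem_right _ hvQ)
        · exact ⟨0, hQc Q rfl hvQ⟩
      obtain ⟨j, hj⟩ := h1
      exact ⟨j, (hQu _).1 hj⟩
  · -- `𝔨 = m`
    refine key ∅ Set.finite_empty (by simp) ?_
    intro c' hc' _
    obtain ⟨a, ha⟩ := hc' (Fin.last s)
    have h1 : c' (Fin.last s) - 1 ∈ 𝔨.map (algebraMap R A) := by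
      have h2 : c' (Fin.last s) - 1 = (c (Fin.last s) - 1) + v₀ * a := by rw [ha]; ring
      rw [h2]
      exact Ideal.add_mem _ hcs (Ideal.mul_mem_right _ _ hv0k)
    obtain ⟨μ, hμ, h3⟩ := pi_max hX1 SG.r0 𝔨 _ h1
    refine ⟨Fin.last s, 1 + μ, ?_, ?_⟩
    · rw [h𝔨] at hμ
      by_contra hcon
      have h4 : 1 + μ ∈ IsLocalRing.maximalIdeal R := hcon
      have h5 : (1 : R) ∈ IsLocalRing.maximalIdeal R := by
        have := Ideal.sub_mem _ h4 hμ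
        simpa using this
      exact (IsLocalRing.maximalIdeal.isMaximal R).ne_top ((Ideal.eq_top_iff_one _).2 h5)
    · rw [map_sub, map_one, coeff_sub, coeff_one_zero, sub_eq_iff_eq_add] at h3
      rw [h3, map_add, map_one, add_comm]

end Pool.Agent.Helper88.GU
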