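import Pool.Agent.Helper88.GU2.M_XL

/-!
Modules YF, YG (final forms).
-/

set_option autoImplicit false

namespace Pool.Agent.Helper88.GU

open Polynomial Pool.Agent.Helper91.GU

universe u

theorem um_row_of_sum {A : Type u} [CommRing A] {s : ℕ} (v w : Fin (s + 2) → A)
    (h : ∑ j, v j * w j = 1) : Um (row (v 0) (fun j : Fin (s + 1) => v j.succ)) := by
  refine ⟨row (w 0) (fun j => w j.succ), ?_⟩
  rw [← h, Fin.sum_univ_succ]
  simp [dotProduct, row]

theorem hYF (hYD : StYD.{u}) (hYE : StYE.{u}) : StYF.{u} := by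
  intro R _ _ _ d n r hr hd hdim hn hfac m e x k he hk hhom hiso hres v w hvw
  obtain ⟨s, rfl⟩ : ∃ s, r = s + 1 := ⟨r - 1, by omega⟩
  refine hYE _ s v (hYD R d n s (by omega) hd hdim (by omega) hfac m e x k he hk hhom hiso
    (hres.imp_right fun h => ?_) _ _ (um_row_of_sum v w hvw))
  have h1 : ((s + 1 : ℕ) : WithBot ℕ∞) = (s : WithBot ℕ∞) + 1 := by push_cast; rfl
  rw [h1] at h
  exact ENat.WithBot.add_le_add_one_right_iff.1 h

theorem exists_fin_adjoin {R : Type u} {P : Type u} [CommRing R] [CommRing P] [Algebra R P]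
    (S : Set P) (f : P) (hf : f ∈ Algebra.adjoin R S) :
    ∃ T : Finset P, (T : Set P) ⊆ S ∧ f ∈ Algebra.adjoin R (T : Set P) := by
  classical
  induction hf using Algebra.adjoin_induction with
  | mem x hx => exact ⟨{x}, by simpa using hx, Algebra.subset_adjoin (by simp)⟩
  | algebraMap r => exact ⟨∅, by simp, Subalgebra.algebraMap_mem _ r⟩
  | add x y _ _ hx hy =>
    obtain ⟨T, hT, hx⟩ := hx
    obtain ⟨U, hU, hy⟩ := hy
    refine ⟨T ∪ U, by simp [hT, hU], Subalgebra.add_mem _ ?_ ?_⟩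
    · exact Algebra.adjoin_mono (by simp) hx
    · exact Algebra.adjoin_mono (by simp) hy
  | mul x y _ _ hx hy =>
    obtain ⟨T, hT, hx⟩ := hx
    obtain ⟨U, hU, hy⟩ := hy
    refine ⟨T ∪ U, by simp [hT, hU], Subalgebra.mul_mem _ ?_ ?_⟩
    · exact Algebra.adjoin_mono (by simp) hx
    · exact Algebra.adjoin_mono (by simp) hy

theorem hYG (hB7 : StB7.{u}) (hYD : StYD.{u}) (hYE : StYE.{u}) : StYG.{u} := by
  classical
  intro R _ _ _ d n r hr hd hdim hn hfac hinf e he S hS v w hvw
  obtain ⟨s, rfl⟩ : ∃ s, r = s + 1 := ⟨r - 1, by omega⟩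
  have h1 : ∀ j : Fin (s + 1 + 1), ∃ T : Finset (MvPolynomial (Fin n) R), (T : Set _) ⊆ S ∧
      (v j : MvPolynomial (Fin n) R) ∈ Algebra.adjoin R (T : Set _) := fun j =>
    exists_fin_adjoin S _ (v j).2
  have h2 : ∀ j : Fin (s + 1 + 1), ∃ T : Finset (MvPolynomial (Fin n) R), (T : Set _) ⊆ S ∧
      (w j : MvPolynomial (Fin n) R) ∈ Algebra.adjoin R (T : Set _) := fun j =>
    exists_fin_adjoin S _ (w j).2
  choose T hTS hT using h1
  choose U hUS hU using h2
  set W : Finset (MvPolynomial (Fin n) R) := Finset.univ.biUnion T ∪ Finset.univ.biUnion U with hW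
  have hWS : (W : Set (MvPolynomial (Fin n) R)) ⊆ S := by
    intro f hf
    rw [hW] at hf
    simp only [Finset.coe_union, Finset.coe_biUnion, Set.mem_union, Set.mem_iUnion] at hf
    rcases hf with ⟨j, -, hj⟩ | ⟨j, -, hj⟩
    · exact hTS j hj
    · exact hUS j hj
  let x : Fin W.card → MvPolynomial (Fin n) R := fun l => (W.equivFin.symm l : MvPolynomial (Fin n) R)
  have hx : Set.range x = (W : Set (MvPolynomial (Fin n) R)) := by
    ext f
    constructor
    · rintro ⟨l, rfl⟩
      exact (W.equivFin.symm l).2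
    · intro hf
      exact ⟨W.equivFin ⟨f, hf⟩, by simp [x]⟩
  have hle : Algebra.adjoin R (Set.range x) ≤ Algebra.adjoin R S :=
    Algebra.adjoin_mono (by rw [hx]; exact hWS)
  have hv : ∀ j, (v j : MvPolynomial (Fin n) R) ∈ Algebra.adjoin R (Set.range x) := fun j =>
    Algebra.adjoin_mono (by
      rw [hx, hW]
      intro f hf
      simp only [Finset.coe_union, Finset.coe_biUnion, Set.mem_union, Set.mem_iUnion]
      exact Or.inl ⟨j, by simp, hf⟩) (hT j)
  have hw : ∀ j, (w j : MvPolynomial (Fin n) R) ∈ Algebra.adjoin R (Set.range x) := fun j =>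
    Algebra.adjoin_mono (by
      rw [hx, hW]
      intro f hf
      simp only [Finset.coe_union, Finset.coe_biUnion, Set.mem_union, Set.mem_iUnion]
      exact Or.inr ⟨j, by simp, hf⟩) (hU j)
  let v' : Fin (s + 1 + 1) → Algebra.adjoin R (Set.range x) := fun j => ⟨v j, hv j⟩
  let w' : Fin (s + 1 + 1) → Algebra.adjoin R (Set.range x) := fun j => ⟨w j, hw j⟩
  have hvw' : ∑ j, v' j * w' j = 1 := by
    apply Subtype.ext
    have := congrArg (fun a : Algebra.adjoin R S => (a : MvPolynomial (Fin n) R)) hvw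
    simpa [v', w'] using this
  have h3 := hYD R d n s (by omega) hd hdim (by omega) hfac W.card e x (fun _ => 1) he
    (fun _ => le_rfl) (fun l => by
      rw [mul_one]
      exact hS _ (hWS (by rw [← hx]; exact ⟨l, rfl⟩)))
    (fun P hP ⟨l, hl⟩ p hp => ⟨l, hl, fun h => hp.one_lt.ne' (Nat.dvd_one.1 h)⟩)
    (Or.inl hinf) _ _ (um_row_of_sum v' w' hvw')
  have h4 := ((hB7 _ _ (Subalgebra.inclusion hle).toRingHom).1 (Unit ⊕ Fin (s + 1))).2.2.2.2.2.1
    _ _ h3
  rw [mp_row, mp_row] at h4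
  refine hYE _ s v ?_
  have h5 : (fun j : Fin (s + 1) => (Subalgebra.inclusion hle).toRingHom (v' j.succ)) =
      fun j : Fin (s + 1) => v j.succ := rfl
  have h6 : (Subalgebra.inclusion hle).toRingHom (v' 0) = v 0 := rfl
  rw [h5, h6, map_one] at h4
  have h7 : (fun j : Fin (s + 1) => (Subalgebra.inclusion hle).toRingHom
      ((0 : Fin (s + 1) → Algebra.adjoin R (Set.range x)) j)) = 0 := by
    funext j
    simp
  rw [h7] at h4
  exact h4

end Pool.Agent.Helper88.GU
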