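import Pool.Agent.Helper88.GU2.M_YFG
import Pool.Agent.Helper88.GU.Fr

/-!
Module YH: the final form with intrinsic hypotheses.
-/

set_option autoImplicit false

namespace Pool.Agent.Helper88.GU

open Polynomial Pool.Agent.Helper91.GU

universe u

/-- homogeneous generators -/
theorem exists_gens {R : Type u} [CommRing R] {n e : ℕ} (he : 1 ≤ e)
    (A : Subalgebra R (MvPolynomial (Fin n) R)) (hfg : A.FG) (hgr : IsGraded A)
    (hdiv : ∀ f ∈ A, ∀ i : ℕ, ¬ e ∣ i → MvPolynomial.homogeneousComponent i f = 0) :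
    ∃ (m : ℕ) (x : Fin m → MvPolynomial (Fin n) R) (k : Fin m → ℕ),
      A = Algebra.adjoin R (Set.range x) ∧ (∀ l, 1 ≤ k l) ∧
      ∀ l, (x l).IsHomogeneous (e * k l) := by
  classical
  obtain ⟨S, hS⟩ := hfg
  have hSA : ∀ f ∈ S, f ∈ A := fun f hf => by rw [← hS]; exact Algebra.subset_adjoin hf
  -- the index set of pairs (generator, degree)
  let T : Finset (MvPolynomial (Fin n) R × ℕ) :=
    (S ×ˢ Finset.range (S.sup MvPolynomial.totalDegree + 1)).filter fun q => 1 ≤ q.2
  let x : Fin T.card → MvPolynomial (Fin n) R := fun l =>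
    MvPolynomial.homogeneousComponent (e * (T.equivFin.symm l).1.2) (T.equivFin.symm l).1.1
  let k : Fin T.card → ℕ := fun l => (T.equivFin.symm l).1.2
  have hk : ∀ l, 1 ≤ k l := fun l => (Finset.mem_filter.1 (T.equivFin.symm l).2).2
  have hxA : ∀ l, x l ∈ A := fun l =>
    hgr _ (hSA _ (Finset.mem_product.1 (Finset.mem_filter.1 (T.equivFin.symm l).2).1).1) _
  have hxT : ∀ f ∈ S, ∀ i, 1 ≤ i → i ≤ S.sup MvPolynomial.totalDegree →
      MvPolynomial.homogeneousComponent (e * i) f ∈ Algebra.adjoin R (Set.range x) := by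
    intro f hf i hi hi2
    have h1 : ((f, i) : MvPolynomial (Fin n) R × ℕ) ∈ T := by
      simp only [T, Finset.mem_filter, Finset.mem_product, Finset.mem_range]
      exact ⟨⟨hf, by omega⟩, hi⟩
    refine Algebra.subset_adjoin ⟨T.equivFin ⟨(f, i), h1⟩, ?_⟩
    simp [x]
  refine ⟨T.card, x, k, le_antisymm ?_ ?_, hk, fun l =>
    MvPolynomial.homogeneousComponent_isHomogeneous _ _⟩
  · rw [← hS]
    refine Algebra.adjoin_le fun f hf => ?_
    rw [SetLike.mem_coe, ← MvPolynomial.sum_homogeneousComponent f]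
    refine Subalgebra.sum_mem _ fun i hi => ?_
    have hfA := hSA f hf
    by_cases hei : e ∣ i
    · obtain ⟨j, rfl⟩ := hei
      rcases Nat.eq_zero_or_pos j with rfl | hj
      · rw [mul_zero, MvPolynomial.homogeneousComponent_zero]
        exact Subalgebra.algebraMap_mem _ _
      · by_cases hj2 : j ≤ S.sup MvPolynomial.totalDegree
        · exact hxT f hf j hj hj2
        · have h2 : f.totalDegree ≤ S.sup MvPolynomial.totalDegree :=
            Finset.le_sup (f := MvPolynomial.totalDegree) hf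
          have h3 : j ≤ e * j := Nat.le_mul_of_pos_left _ he
          rw [MvPolynomial.homogeneousComponent_eq_zero _ _ (by omega)]
          exact Subalgebra.zero_mem _
    · rw [hdiv f hfA i hei]
      exact Subalgebra.zero_mem _
  · refine Algebra.adjoin_le ?_
    rintro _ ⟨l, rfl⟩
    exact hxA l

section

variable {R : Type u} [CommRing R] {n : ℕ}

/-- the homotopy `X_j ↦ X_j T` -/
noncomputable def gamP (R : Type u) [CommRing R] (n : ℕ) :
    MvPolynomial (Fin n) R →ₐ[R] (MvPolynomial (Fin n) R)[X] :=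
  MvPolynomial.aeval (fun j => C (MvPolynomial.X j) * X)

theorem gamP_monomial (d : Fin n →₀ ℕ) (r : R) :
    gamP R n (MvPolynomial.monomial d r) = C (MvPolynomial.monomial d r) * X ^ d.degree := by
  rw [gamP, MvPolynomial.aeval_monomial, MvPolynomial.monomial_eq, map_mul, mul_assoc]
  congr 1
  rw [Finsupp.prod, Finsupp.prod, map_prod, Finsupp.degree_apply, ← Finset.prod_pow_eq_pow_sum,
    ← Finset.prod_mul_distrib]
  refine Finset.prod_congr rfl ?_
  intro j _
  rw [mul_pow, map_pow]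

theorem gamP_homogeneous (f : MvPolynomial (Fin n) R) (d : ℕ) (hf : f.IsHomogeneous d) :
    gamP R n f = C f * X ^ d := by
  rw [f.as_sum, map_sum, map_sum, Finset.sum_mul]
  refine Finset.sum_congr rfl fun v hv => ?_
  rw [gamP_monomial]
  have h1 : v.degree = d := by
    rw [Finsupp.degree_eq_weight_one]
    exact hf (MvPolynomial.mem_support_iff.1 hv)
  rw [h1]

/-- comparison of the coaction of `A` with the homotopy of the polynomial ring -/
theorem expand_gam {m e : ℕ} (x : Fin m → MvPolynomial (Fin n) R) (k : Fin m → ℕ)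
    (hx : ∀ l, (x l).IsHomogeneous (e * k l)) (G : Gr (Algebra.adjoin R (Set.range x)))
    (hG1 : ∀ l, G.Γ ⟨x l, Algebra.subset_adjoin ⟨l, rfl⟩⟩ =
      C ⟨x l, Algebra.subset_adjoin ⟨l, rfl⟩⟩ * X ^ (k l))
    (hG2 : ∀ a : R, G.Γ (algebraMap R _ a) = C (algebraMap R _ a))
    (f : Algebra.adjoin R (Set.range x)) :
    Polynomial.expand _ e ((G.Γ f).map (Algebra.adjoin R (Set.range x)).val.toRingHom) =
      gamP R n f := by
  obtain ⟨f, hf⟩ := f
  induction hf using Algebra.adjoin_induction with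
  | mem y hy =>
    obtain ⟨l, rfl⟩ := hy
    rw [hG1 l, gamP_homogeneous _ _ (hx l)]
    simp [Polynomial.map_mul, pow_mul]
  | algebraMap r =>
    have h1 : (⟨algebraMap R (MvPolynomial (Fin n) R) r, Subalgebra.algebraMap_mem _ r⟩ :
      Algebra.adjoin R (Set.range x)) = algebraMap R _ r := rfl
    have h2 := hG2 r
    rw [h1, h2]
    simp
  | add y z hy hz h1 h2 =>
    have h3 : (⟨y + z, Subalgebra.add_mem _ hy hz⟩ : Algebra.adjoin R (Set.range x)) =
      ⟨y, hy⟩ + ⟨z, hz⟩ := rfl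
    rw [h3, map_add, Polynomial.map_add, map_add, h1, h2, ← map_add]
    rfl
  | mul y z hy hz h1 h2 =>
    have h3 : (⟨y * z, Subalgebra.mul_mem _ hy hz⟩ : Algebra.adjoin R (Set.range x)) =
      ⟨y, hy⟩ * ⟨z, hz⟩ := rfl
    rw [h3, map_mul, Polynomial.map_mul, map_mul, h1, h2, ← map_mul]
    rfl

/-- the coaction on a homogeneous element -/
theorem gam_coeff_of_homogeneous {m e : ℕ} (he : 1 ≤ e) (x : Fin m → MvPolynomial (Fin n) R)
    (k : Fin m → ℕ) (hx : ∀ l, (x l).IsHomogeneous (e * k l))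
    (G : Gr (Algebra.adjoin R (Set.range x)))
    (hG1 : ∀ l, G.Γ ⟨x l, Algebra.subset_adjoin ⟨l, rfl⟩⟩ =
      C ⟨x l, Algebra.subset_adjoin ⟨l, rfl⟩⟩ * X ^ (k l))
    (hG2 : ∀ a : R, G.Γ (algebraMap R _ a) = C (algebraMap R _ a))
    (f : Algebra.adjoin R (Set.range x)) (j : ℕ)
    (hf : (f : MvPolynomial (Fin n) R).IsHomogeneous (e * j)) : (G.Γ f).coeff j = f := by
  have h1 := expand_gam x k hx G hG1 hG2 f
  rw [gamP_homogeneous _ _ hf] at h1
  have h2 := congrArg (fun q => q.coeff (e * j)) h1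
  simp only [coeff_C_mul, coeff_X_pow, if_true, mul_one] at h2
  rw [mul_comm e j, Polynomial.coeff_expand_mul (by omega), Polynomial.coeff_map] at h2
  exact Subtype.ext h2

end

/-- the isotropy condition for generators follows from `FreeAction` -/
theorem iso_of_free (hYA : StYA.{u}) {R : Type u} [CommRing R] {n e m : ℕ} (he : 1 ≤ e)
    (x : Fin m → MvPolynomial (Fin n) R) (k : Fin m → ℕ) (hk : ∀ l, 1 ≤ k l)
    (hx : ∀ l, (x l).IsHomogeneous (e * k l))
    (hfree : FreeAction e (Algebra.adjoin R (Set.range x))) : Iso x k := by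
  intro P hP ⟨l₀, hl₀⟩ p hp
  obtain ⟨G, hG1, hG2⟩ := hYA R n m e x k he hx
  obtain ⟨j, a, hj, ha, haP⟩ := hfree.2 P hP ⟨e * k l₀, _,
    Nat.mul_pos he (hk l₀), hx l₀, hl₀⟩ p hp
  by_contra hcon
  push Not at hcon
  have key : ∀ (f : MvPolynomial (Fin n) R) (hf : f ∈ Algebra.adjoin R (Set.range x)),
      ∀ i, ¬ p ∣ i → (G.Γ ⟨f, hf⟩).coeff i ∈ P := by
    intro f hf
    induction hf using Algebra.adjoin_induction with
    | mem y hy =>
      obtain ⟨l, rfl⟩ := hy
      intro i hi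
      rw [hG1 l, coeff_C_mul, coeff_X_pow]
      split_ifs with h
      · rw [mul_one]
        by_contra h2
        exact hi (h ▸ hcon l h2)
      · rw [mul_zero]
        exact P.zero_mem
    | algebraMap r =>
      intro i hi
      have h1 : (⟨algebraMap R (MvPolynomial (Fin n) R) r, Subalgebra.algebraMap_mem _ r⟩ :
        Algebra.adjoin R (Set.range x)) = algebraMap R _ r := rfl
      rw [h1, hG2, coeff_C]
      split_ifs with h
      · exact absurd (h ▸ dvd_zero p) hi
      · exact P.zero_mem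
    | add y z hy hz h1 h2 =>
      intro i hi
      have h3 : (⟨y + z, Subalgebra.add_mem _ hy hz⟩ : Algebra.adjoin R (Set.range x)) =
        ⟨y, hy⟩ + ⟨z, hz⟩ := rfl
      rw [h3, map_add, coeff_add]
      exact P.add_mem (h1 i hi) (h2 i hi)
    | mul y z hy hz h1 h2 =>
      intro i hi
      have h3 : (⟨y * z, Subalgebra.mul_mem _ hy hz⟩ : Algebra.adjoin R (Set.range x)) =
        ⟨y, hy⟩ * ⟨z, hz⟩ := rfl
      rw [h3, map_mul, coeff_mul]
      refine P.sum_mem fun q hq => ?_
      have h4 := Finset.HasAntidiagonal.mem_antidiagonal.1 hq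
      by_cases h5 : p ∣ q.1
      · have h6 : ¬ p ∣ q.2 := fun h => hi (h4 ▸ dvd_add h5 h)
        exact P.mul_mem_left _ (h2 _ h6)
      · exact P.mul_mem_right _ (h1 _ h5)
  refine haP ?_
  have h1 := key a a.2 j hj
  rwa [Subtype.coe_eta, gam_coeff_of_homogeneous he x k hx G hG1 hG2 a j ha] at h1

/-- YH. The final form. -/
theorem hYH (hB7 : StB7.{u}) (hYA : StYA.{u}) (hYD : StYD.{u}) (hYE : StYE.{u})
    (R : Type u) [CommRing R] [IsLocalRing R] [IsNoetherianRing R] (d n r : ℕ)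
    (hr : 2 ≤ r) (hd : 1 ≤ d) (hdim : ringKrullDim R ≤ d) (hn : d + n + 1 ≤ 2 * r)
    (hfac : IsUnit (r.factorial : R)) (A : Subalgebra R (MvPolynomial (Fin n) R))
    (hA : ∀ S : Finset (MvPolynomial (Fin n) R), (S : Set (MvPolynomial (Fin n) R)) ⊆ A →
      ∃ (A' : Subalgebra R (MvPolynomial (Fin n) R)) (e : ℕ), A' ≤ A ∧
        (S : Set (MvPolynomial (Fin n) R)) ⊆ A' ∧ A'.FG ∧ IsGraded A' ∧ 1 ≤ e ∧
        FreeAction e A' ∧ FibreCond r A')
    (v w : Fin (r + 1) → A) (hvw : ∑ j, v j * w j = 1) :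
    ∃ M : Matrix (Fin (r + 1)) (Fin (r + 1)) A, M.det = 1 ∧ ∀ j, M 0 j = v j := by
  classical
  obtain ⟨s, rfl⟩ : ∃ s, r = s + 1 := ⟨r - 1, by omega⟩
  obtain ⟨A', e, hle, hS, hfg, hgr, he, hfree, hres⟩ := hA
    (Finset.univ.image (fun j => (v j : MvPolynomial (Fin n) R)) ∪
      Finset.univ.image (fun j => (w j : MvPolynomial (Fin n) R))) (by
      intro f hf
      simp only [Finset.coe_union, Finset.coe_image, Finset.coe_univ, Set.image_univ,
        Set.mem_union, Set.mem_range] at hf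
      rcases hf with ⟨j, rfl⟩ | ⟨j, rfl⟩
      · exact (v j).2
      · exact (w j).2)
  obtain ⟨m, x, k, rfl, hk, hx⟩ := exists_gens he A' hfg hgr hfree.1
  have hv : ∀ j, (v j : MvPolynomial (Fin n) R) ∈ Algebra.adjoin R (Set.range x) := fun j =>
    hS (by simp)
  have hw : ∀ j, (w j : MvPolynomial (Fin n) R) ∈ Algebra.adjoin R (Set.range x) := fun j =>
    hS (by simp)
  let v' : Fin (s + 1 + 1) → Algebra.adjoin R (Set.range x) := fun j => ⟨v j, hv j⟩
  let w' : Fin (s + 1 + 1) → Algebra.adjoin R (Set.range x) := fun j => ⟨w j, hw j⟩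
  have hvw' : ∑ j, v' j * w' j = 1 := by
    apply Subtype.ext
    have := congrArg (fun a : A => (a : MvPolynomial (Fin n) R)) hvw
    simpa [v', w'] using this
  have h3 := hYD R d n s (by omega) hd hdim (by omega) hfac m e x k he hk hx
    (iso_of_free hYA he x k hk hx hfree) (hres.imp_right fun h => by
      have h1 : ((s + 1 : ℕ) : WithBot ℕ∞) = (s : WithBot ℕ∞) + 1 := by push_cast; rfl
      rw [h1] at h
      exact ENat.WithBot.add_le_add_one_right_iff.1 h) _ _ (um_row_of_sum v' w' hvw')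
  have h4 := ((hB7 _ _ (Subalgebra.inclusion hle).toRingHom).1 (Unit ⊕ Fin (s + 1))).2.2.2.2.2.1
    _ _ h3
  rw [mp_row, mp_row] at h4
  refine hYE _ s v ?_
  have h5 : (fun j : Fin (s + 1) => (Subalgebra.inclusion hle).toRingHom (v' j.succ)) =
      fun j : Fin (s + 1) => v j.succ := rfl
  have h6 : (Subalgebra.inclusion hle).toRingHom (v' 0) = v 0 := rfl
  rw [h5, h6, map_one] at h4
  have h7 : (fun j : Fin (s + 1) => (Subalgebra.inclusion hle).toRingHom
      ((0 : Fin (s + 1) → Algebra.adjoin R (Set.range x)) j)) = 0 := by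
    funext j
    simp
  rw [h7] at h4
  exact h4

end Pool.Agent.Helper88.GU
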