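import Pool.Agent.Helper91.GU.All
import Pool.Agent.Helper91.GU.SCore
import Pool.Agent.Helper12.GU2.M_XA
import Pool.Agent.Helper14.GU2.M_XB
import Pool.Agent.Helper14.GU2.M_YA
import Pool.Agent.Helper26.GU2.M_YD
import Pool.Agent.Helper28.GU2.M_VD
import Pool.Agent.Helper28.GU2.M_YC
import Pool.Agent.Helper29.GU2.M_WA
import Pool.Agent.Helper41.GU2.M_XI
import Pool.Agent.Helper60.GU2.M_XE
import Pool.Agent.Helper67.GU2.M_VB
import Pool.Agent.Helper67.GU2.M_XD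
import Pool.Agent.Helper7.GU2.M_VF
import Pool.Agent.Helper7.GU2.M_XN
import Pool.Agent.Helper70.GU2.M_WB
import Pool.Agent.Helper72.GU2.M_YE
import Pool.Agent.Helper77.GU2.M_WD
import Pool.Agent.Helper78.GU2.M_YB
import Pool.Agent.Helper79.GU2.M_WE
import Pool.Agent.Helper80.GU2.M_VE
import Pool.Agent.Helper81.GU2.M_XG
import Pool.Agent.Helper84.GU2.M_XF
import Pool.Agent.Helper93.GU2.M_XH
import Pool.Agent.Helper95.GU2.M_VC
import Pool.Agent.Helper95.GU2.M_WC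
import Pool.Agent.Helper99.GU2.M_VA
import Pool.Agent.Helper88.GU2.M_XK
import Pool.Agent.Helper88.GU2.M_XL
import Pool.Agent.Helper88.GU2.M_XM
import Pool.Agent.Helper88.GU2.M_YFG
import Pool.Agent.Helper88.GU2.M_YH

/-!
# Project GU2 (MP_b1e6de_al): assembly of all modules
-/

set_option autoImplicit false

namespace Pool.Agent.Helper88.GU

open Pool.Agent.Helper91.GU

universe u

theorem aSC : StSC.{u} := hSC.{u} aB0.{u} aB7.{u} aE0.{u} aE2.{u} aE3.{u} aF2.{u} aF3c.{u} aF4.{u}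
  aF5.{u}
theorem aVA : StVA.{u} := Pool.Agent.Helper99.GU2.hVA.{u}
theorem aVB : StVB.{u} := Pool.Agent.Helper67.GU2.hVB.{u}
theorem aVC : StVC.{u} := Pool.Agent.Helper95.GU2.hVC.{u}
theorem aVD : StVD.{u} := Pool.Agent.Helper28.GU2.hVD.{u}
theorem aVE : StVE.{u} := Pool.Agent.Helper80.GU2.hVE.{u}
theorem aVF : StVF.{u} := Pool.Agent.Helper7.GU2.hVF.{u} aD3.{u}
theorem aWA : StWA.{u} := Pool.Agent.Helper29.GU2.hWA.{u} aVC.{u}
theorem aWB : StWB.{u} := Pool.Agent.Helper70.GU2.hWB.{u} aD3.{u}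
theorem aWC : StWC.{u} := Pool.Agent.Helper95.GU2.hWC.{u}
theorem aWD : StWD.{u} := Pool.Agent.Helper77.GU2.hWD.{u} aB7.{u} aVC.{u} aWA.{u} aWB.{u} aWC.{u}
theorem aWE : StWE.{u} := Pool.Agent.Helper79.GU2.hWE.{u} aB7.{u} aWD.{u}
theorem aXA : StXA.{u} := Pool.Agent.Helper12.GU2.hXA.{u} aVC.{u} aVD.{u}
theorem aXB : StXB.{u} := Pool.Agent.Helper14.GU2.hXB.{u} aVF.{u} aXA.{u}
theorem aXD : StXD.{u} := Pool.Agent.Helper67.GU2.hXD.{u}
theorem aXE : StXE.{u} := Pool.Agent.Helper60.GU2.hXE.{u} aXD.{u}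
theorem aXF : StXF.{u} := Pool.Agent.Helper84.GU2.hXF.{u} aVD.{u} aVE.{u} aVF.{u} aXD.{u}
theorem aXG : StXG.{u} := Pool.Agent.Helper81.GU2.hXG.{u} aVC.{u}
theorem aXH : StXH.{u} := Pool.Agent.Helper93.GU2.hXH.{u} aD8.{u} aVD.{u}
theorem aXI : StXI.{u} := Pool.Agent.Helper41.GU2.hXI.{u} aB0.{u}
theorem aXK : StXK.{u} := hXK.{u} aSC.{u}
theorem aXL : StXL.{u} := hXL.{u} aB7.{u} aXE.{u} aXF.{u} aXG.{u} aXH.{u} aXI.{u} aXK.{u}
theorem aXM : StXM.{u} := hXM.{u} aB7.{u} aWE.{u} aXB.{u} aXD.{u} aXL.{u}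
theorem aXN : StXN.{u} := Pool.Agent.Helper7.GU2.hXN.{u} aB0.{u} aEB.{u}
theorem aYA : StYA.{u} := Pool.Agent.Helper14.GU2.hYA.{u}
theorem aYB : StYB.{u} := Pool.Agent.Helper78.GU2.hYB.{u}
theorem aYC : StYC.{u} := Pool.Agent.Helper28.GU2.hYC.{u} aYB.{u}
theorem aYD : StYD.{u} := Pool.Agent.Helper26.GU2.hYD.{u} aB7.{u} aVA.{u} aVB.{u} aXM.{u} aXN.{u}
  aYA.{u} aYC.{u}
theorem aYE : StYE.{u} := Pool.Agent.Helper72.GU2.hYE.{u}
theorem aYF : StYF.{u} := hYF.{u} aYD.{u} aYE.{u}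
theorem aYG : StYG.{u} := hYG.{u} aB7.{u} aYD.{u} aYE.{u}

end Pool.Agent.Helper88.GU
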