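import Pool.Agent.Helper88.GU.St
import Pool.Agent.Helper78.GU.SubHeight2

/-!
Module YB (dimension inequality for primes; proof of helper78).
-/

set_option autoImplicit false

namespace Pool.Agent.Helper88.GU

open Polynomial Pool.Agent.Helper91.GU

universe u

theorem hYB : StYB.{u} := by
  intro R _ _ n A _ P _
  exact Pool.Agent.Helper78.GU.height_le_of_subalgebra n A P

end Pool.Agent.Helper88.GU
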